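import Pool.Agent.H71.FX.Targets

/-! Prefix vocabulary classes, row EN: the code of a structure. -/

set_option autoImplicit false

namespace Pool.Agent.H4.FX

open Pool.Agent.H71.FX Pool.Agent.H71.PF Pool.Agent.H8.PL

/-- transport of the rules along an embedding -/
theorem rules_of {α β Q : Type} (D : Rc β Q) (m : Rc α Q) (ι : α → β)
    (hι : ∀ a b, ι a = ι b ↔ a = b)
    (hr : ∀ a, D.r (ι a) = ι (m.r a)) (hl : ∀ a, D.l (ι a) = ι (m.l a))
    (hu : ∀ a, D.u (ι a) = ι (m.u a)) (hd : ∀ a, D.d (ι a) = ι (m.d a))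
    (hL : ∀ a, D.L (ι a) = ι (m.L a)) (hlf : ∀ a, D.lf (ι a) ↔ m.lf a)
    (hrt : ∀ a, D.rt (ι a) ↔ m.rt a) (hbt : ∀ a, D.bt (ι a) ↔ m.bt a)
    (htp : ∀ a, D.tp (ι a) ↔ m.tp a) (hd1 : ∀ a, D.d1 (ι a) ↔ m.d1 a)
    (hk1 : ∀ a, D.k1 (ι a) ↔ m.k1 a) (hd2 : ∀ a, D.d2 (ι a) ↔ m.d2 a)
    (hk2 : ∀ a, D.k2 (ι a) ↔ m.k2 a) (hT : ∀ q a, D.T q (ι a) ↔ m.T q a)
    (U : UT Q) (Hh Vv : Q → Q → Prop) (a : α)
    (h : m.G1 a ∧ m.G2 a ∧ m.G3 a ∧ m.G4 a ∧ m.G5 U Hh Vv a) :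
    D.G1 (ι a) ∧ D.G2 (ι a) ∧ D.G3 (ι a) ∧ D.G4 (ι a) ∧ D.G5 U Hh Vv (ι a) := by
  simp only [Rc.G1, Rc.G2, Rc.G3, Rc.G4, Rc.G5, hr, hl, hu, hd, hL, hlf, hrt, hbt, htp, hd1, hk1,
    hd2, hk2, hT, hι]
  exact h

section
variable {α Q : Type} (m : Rc α Q) (e : Q → ℕ) (N : ℕ)

/-- the predicates -/
def Pk (k : ℕ) (a : α) : Prop :=
  (k = 6 ∧ m.lf a) ∨ (k = 7 ∧ m.rt a) ∨ (k = 8 ∧ m.bt a) ∨ (k = 9 ∧ m.tp a) ∨
  (k = 10 ∧ m.d1 a) ∨ (k = 11 ∧ m.k1 a) ∨ (k = 12 ∧ m.d2 a) ∨ (k = 13 ∧ m.k2 a) ∨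
  (∃ q, k = 14 + e q ∧ m.T q a) ∨ k = 14 + N

open Classical in
/-- the function `f` -/
noncomputable def fF (x : α × Fin (15 + N)) : α × Fin (15 + N) :=
  if x.2.1 = 0 then (x.1, ⟨0, by omega⟩) else if x.2.1 = 1 then (m.r x.1, ⟨0, by omega⟩)
  else if x.2.1 = 2 then (m.l x.1, ⟨0, by omega⟩) else if x.2.1 = 3 then (m.u x.1, ⟨0, by omega⟩)
  else if x.2.1 = 4 then (m.d x.1, ⟨0, by omega⟩) else if x.2.1 = 5 then (m.L x.1, ⟨0, by omega⟩)
  else if Pk m e N x.2.1 x.1 then (x.1, ⟨0, by omega⟩) else (x.1, ⟨1, by omega⟩)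

/-- the function `g` -/
def gF (α : Type) (N : ℕ) (x : α × Fin (15 + N)) : α × Fin (15 + N) :=
  (x.1, ⟨(x.2.1 + 1) % (15 + N), Nat.mod_lt _ (by omega)⟩)

theorem g_it (j : ℕ) (x : α × Fin (15 + N)) :
    (gF α N)^[j] x = (x.1, ⟨(x.2.1 + j) % (15 + N), Nat.mod_lt _ (by omega)⟩) := by
  induction j with
  | zero =>
    refine Prod.ext rfl (Fin.ext ?_)
    show x.2.1 = (x.2.1 + 0) % (15 + N)
    rw [add_zero, Nat.mod_eq_of_lt x.2.2]
  | succ j ih =>
    rw [Function.iterate_succ_apply', ih]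
    refine Prod.ext rfl (Fin.ext ?_)
    show ((x.2.1 + j) % (15 + N) + 1) % (15 + N) = (x.2.1 + (j + 1)) % (15 + N)
    rw [Nat.mod_add_mod, add_assoc]

theorem g_it0 (j : ℕ) (hj : j < 15 + N) (a : α) :
    (gF α N)^[j] (a, ⟨0, by omega⟩) = (a, ⟨j, hj⟩) := by
  rw [g_it]
  refine Prod.ext rfl (Fin.ext ?_)
  show (0 + j) % (15 + N) = j
  rw [zero_add, Nat.mod_eq_of_lt hj]

theorem f_le (x : α × Fin (15 + N)) :
    (fF m e N x).2.1 ≤ 1 ∧ (x.2.1 < 6 → (fF m e N x).2.1 = 0) := by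
  unfold fF
  split_ifs <;> refine ⟨by simp, fun h => ?_⟩ <;> first | rfl | (exfalso; omega)

theorem f_zero (a : α) : fF m e N (a, ⟨0, by omega⟩) = (a, ⟨0, by omega⟩) := by
  unfold fF
  rw [if_pos rfl]

theorem f_fix (x : α × Fin (15 + N)) : fF m e N x = x ↔ x.2.1 = 0 := by
  constructor
  · intro h
    obtain ⟨h1, h2⟩ := f_le m e N x
    rw [h] at h1 h2
    exact h2 (by omega)
  · intro h
    have : x = (x.1, ⟨0, by omega⟩) := Prod.ext rfl (Fin.ext h)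
    rw [this]
    exact f_zero m e N x.1

theorem f_P (a : α) (k : ℕ) (hk : k < 15 + N) (h6 : 6 ≤ k) :
    fF m e N ((gF α N)^[k] (a, ⟨0, by omega⟩)) = (a, ⟨0, by omega⟩) ↔ Pk m e N k a := by
  rw [g_it0 N k hk]
  unfold fF
  simp only []
  rw [if_neg (by omega), if_neg (by omega), if_neg (by omega), if_neg (by omega),
    if_neg (by omega), if_neg (by omega)]
  split_ifs with h
  · simp [h]
  · simp [h]

end

theorem pf_EN : T_EN := by
  intro α Q m e N U Hh Vv he heN hm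
  set f := fF m e N with hf
  set g := gF α N with hg
  obtain ⟨ι, hι⟩ : ∃ ι : α → α × Fin (15 + N), ι = fun a => (a, ⟨0, by omega⟩) := ⟨_, rfl⟩
  have hιe : ∀ a b, ι a = ι b ↔ a = b := by
    intro a b
    rw [hι]
    simp
  have fx : ∀ x, f x = x → x = ι x.1 := by
    intro x hx
    rw [hι]
    exact Prod.ext rfl (Fin.ext ((f_fix m e N x).1 hx))
  have e1 : ∀ a, f (g^[1] (ι a)) = ι (m.r a) := by
    intro a
    rw [hι]
    show f (g^[1] (a, ⟨0, by omega⟩)) = (m.r a, ⟨0, by omega⟩)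
    rw [hg, g_it0 N 1 (by omega), hf]
    simp [fF]
  have e2 : ∀ a, f (g^[2] (ι a)) = ι (m.l a) := by
    intro a
    rw [hι]
    show f (g^[2] (a, ⟨0, by omega⟩)) = (m.l a, ⟨0, by omega⟩)
    rw [hg, g_it0 N 2 (by omega), hf]
    simp [fF]
  have e3 : ∀ a, f (g^[3] (ι a)) = ι (m.u a) := by
    intro a
    rw [hι]
    show f (g^[3] (a, ⟨0, by omega⟩)) = (m.u a, ⟨0, by omega⟩)
    rw [hg, g_it0 N 3 (by omega), hf]
    simp [fF]
  have e4 : ∀ a, f (g^[4] (ι a)) = ι (m.d a) := by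
    intro a
    rw [hι]
    show f (g^[4] (a, ⟨0, by omega⟩)) = (m.d a, ⟨0, by omega⟩)
    rw [hg, g_it0 N 4 (by omega), hf]
    simp [fF]
  have e5 : ∀ a, f (g^[5] (ι a)) = ι (m.L a) := by
    intro a
    rw [hι]
    show f (g^[5] (a, ⟨0, by omega⟩)) = (m.L a, ⟨0, by omega⟩)
    rw [hg, g_it0 N 5 (by omega), hf]
    simp [fF]
  have p : ∀ (k : ℕ), k < 15 + N → 6 ≤ k → ∀ a, (f (g^[k] (ι a)) = ι a ↔ Pk m e N k a) := by
    intro k hk h6 a
    rw [hι]
    exact f_P m e N a k hk h6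
  have p6 : ∀ a, (dcd e f g).lf (ι a) ↔ m.lf a := fun a =>
    (p 6 (by omega) (by omega) a).trans ⟨fun h => by
      rcases h with h | h | h | h | h | h | h | h | ⟨q, h, -⟩ | h <;>
        first
        | exact h.2
        | (exfalso; omega), fun h => by simp [Pk, h]⟩
  have p7 : ∀ a, (dcd e f g).rt (ι a) ↔ m.rt a := fun a =>
    (p 7 (by omega) (by omega) a).trans ⟨fun h => by
      rcases h with h | h | h | h | h | h | h | h | ⟨q, h, -⟩ | h <;>
        first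
        | exact h.2
        | (exfalso; omega), fun h => by simp [Pk, h]⟩
  have p8 : ∀ a, (dcd e f g).bt (ι a) ↔ m.bt a := fun a =>
    (p 8 (by omega) (by omega) a).trans ⟨fun h => by
      rcases h with h | h | h | h | h | h | h | h | ⟨q, h, -⟩ | h <;>
        first
        | exact h.2
        | (exfalso; omega), fun h => by simp [Pk, h]⟩
  have p9 : ∀ a, (dcd e f g).tp (ι a) ↔ m.tp a := fun a =>
    (p 9 (by omega) (by omega) a).trans ⟨fun h => by
      rcases h with h | h | h | h | h | h | h | h | ⟨q, h, -⟩ | h <;>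
        first
        | exact h.2
        | (exfalso; omega), fun h => by simp [Pk, h]⟩
  have p10 : ∀ a, (dcd e f g).d1 (ι a) ↔ m.d1 a := fun a =>
    (p 10 (by omega) (by omega) a).trans ⟨fun h => by
      rcases h with h | h | h | h | h | h | h | h | ⟨q, h, -⟩ | h <;>
        first
        | exact h.2
        | (exfalso; omega), fun h => by simp [Pk, h]⟩
  have p11 : ∀ a, (dcd e f g).k1 (ι a) ↔ m.k1 a := fun a =>
    (p 11 (by omega) (by omega) a).trans ⟨fun h => by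
      rcases h with h | h | h | h | h | h | h | h | ⟨q, h, -⟩ | h <;>
        first
        | exact h.2
        | (exfalso; omega), fun h => by simp [Pk, h]⟩
  have p12 : ∀ a, (dcd e f g).d2 (ι a) ↔ m.d2 a := fun a =>
    (p 12 (by omega) (by omega) a).trans ⟨fun h => by
      rcases h with h | h | h | h | h | h | h | h | ⟨q, h, -⟩ | h <;>
        first
        | exact h.2
        | (exfalso; omega), fun h => by simp [Pk, h]⟩
  have p13 : ∀ a, (dcd e f g).k2 (ι a) ↔ m.k2 a := fun a =>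
    (p 13 (by omega) (by omega) a).trans ⟨fun h => by
      rcases h with h | h | h | h | h | h | h | h | ⟨q, h, -⟩ | h <;>
        first
        | exact h.2
        | (exfalso; omega), fun h => by simp [Pk, h]⟩
  have pT : ∀ q a, (dcd e f g).T q (ι a) ↔ m.T q a := fun q a =>
    (p (14 + e q) (by have := heN q; omega) (by omega) a).trans ⟨fun h => by
      have := heN q
      rcases h with h | h | h | h | h | h | h | h | ⟨q', h, h'⟩ | h
      all_goals first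
        | (exfalso; omega)
        | skip
      have h2 : q = q' := he (by omega)
      rw [h2]
      exact h', fun h => Or.inr (Or.inr (Or.inr (Or.inr (Or.inr (Or.inr (Or.inr (Or.inr
        (Or.inl ⟨q, rfl, h⟩))))))))⟩
  have pN : ∀ a, f (g^[14 + N] (ι a)) = ι a := fun a =>
    (p (14 + N) (by omega) (by omega) a).2 (Or.inr (Or.inr (Or.inr (Or.inr (Or.inr (Or.inr
      (Or.inr (Or.inr (Or.inr rfl)))))))))
  have rules : ∀ a, (dcd e f g).G1 (ι a) ∧ (dcd e f g).G2 (ι a) ∧ (dcd e f g).G3 (ι a) ∧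
      (dcd e f g).G4 (ι a) ∧ (dcd e f g).G5 U Hh Vv (ι a) := fun a =>
    rules_of (dcd e f g) m ι hιe e1 e2 e3 e4 e5 p6 p7 p8 p9 p10 p11 p12 p13 pT U Hh Vv a (hm a)
  have gv : ∀ j (x : α × Fin (15 + N)), (g^[j] x).2.1 = (x.2.1 + j) % (15 + N) := by
    intro j x
    rw [hg, g_it]
  refine ⟨f, g, fun x => ⟨⟨?_, ?_, fun hx => ⟨?_, ?_⟩⟩, fun hx => ?_⟩, fun x hx => ?_,
    fun x y hx hy hxy => ?_, fun x hx => ?_, fun x hx => ?_⟩
  · rw [hg, g_it]
    refine Prod.ext rfl (Fin.ext ?_)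
    show (x.2.1 + (15 + N)) % (15 + N) = x.2.1
    rw [Nat.add_mod_right, Nat.mod_eq_of_lt x.2.2]
  · have hx2 := x.2.2
    by_cases h0 : x.2.1 = 0
    · exact ⟨0, by omega, (f_fix m e N x).2 h0⟩
    · refine ⟨15 + N - x.2.1, by omega, (f_fix m e N _).2 ?_⟩
      rw [gv, show x.2.1 + (15 + N - x.2.1) = 15 + N by omega, Nat.mod_self]
  · intro i hi hi0 hc
    have h1 := (f_fix m e N _).1 hc
    rw [gv, (f_fix m e N x).1 hx, zero_add, Nat.mod_eq_of_lt hi] at h1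
    omega
  · intro i hi
    refine (f_fix m e N _).2 ((f_le m e N _).2 ?_)
    rw [gv, (f_fix m e N x).1 hx, zero_add, Nat.mod_eq_of_lt (by omega)]
    exact hi
  · rw [fx x hx]
    exact rules _
  · rw [fx x hx]
    show ((dcd e f g).lf (ι x.1) ∧ (dcd e f g).bt (ι x.1)) ↔ (m.lf (ι x.1).1 ∧ m.bt (ι x.1).1)
    rw [p6, p8, hι]
  · rw [fx x hx, fx y hy, hxy]
  · have h1 := gv 1 x
    have h2 : (g^[1] x).2.1 = x.2.1 := by rw [Function.iterate_one, hx]
    have h3 := x.2.2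
    rw [h2] at h1
    rcases Nat.lt_or_ge (x.2.1 + 1) (15 + N) with h4 | h4
    · rw [Nat.mod_eq_of_lt h4] at h1
      omega
    · rw [show x.2.1 + 1 = 15 + N by omega, Nat.mod_self] at h1
      omega
  · have h1 : g (g^[14 + N] (ι x.1)) = g^[(14 + N).succ] (ι x.1) :=
      (Function.iterate_succ_apply' g (14 + N) (ι x.1)).symm
    rw [fx x hx, pN, h1, hg, g_it, hι]
    refine Prod.ext rfl (Fin.ext ?_)
    show 0 = (0 + (14 + N).succ) % (15 + N)
    rw [zero_add, show (14 + N).succ = 15 + N by omega, Nat.mod_self]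

end Pool.Agent.H4.FX
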