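import Pool.Agent.H71.FX.Targets

/-! Prefix vocabulary classes, row RS: the structure on the first elements of the blocks. -/

set_option autoImplicit false

namespace Pool.Agent.H4.FX

open Pool.Agent.H71.FX Pool.Agent.H71.PF Pool.Agent.H8.PL

theorem pf_RS : T_RS := by
  intro β Q f g ℓ e U Hh Vv hl h
  have hf : ∀ (x : {x // f x = x}) (i : ℕ), i < 6 → f (f (g^[i] x.1)) = f (g^[i] x.1) :=
    fun x i hi => ((h x.1).1.2.2 x.2).2 i hi
  let m : Rc {x // f x = x} Q :=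
    { r := fun x => ⟨f (g^[1] x.1), hf x 1 (by norm_num)⟩
      l := fun x => ⟨f (g^[2] x.1), hf x 2 (by norm_num)⟩
      u := fun x => ⟨f (g^[3] x.1), hf x 3 (by norm_num)⟩
      d := fun x => ⟨f (g^[4] x.1), hf x 4 (by norm_num)⟩
      L := fun x => ⟨f (g^[5] x.1), hf x 5 (by norm_num)⟩
      lf := fun x => (dcd e f g).lf x.1
      rt := fun x => (dcd e f g).rt x.1
      bt := fun x => (dcd e f g).bt x.1
      tp := fun x => (dcd e f g).tp x.1
      d1 := fun x => (dcd e f g).d1 x.1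
      k1 := fun x => (dcd e f g).k1 x.1
      d2 := fun x => (dcd e f g).d2 x.1
      k2 := fun x => (dcd e f g).k2 x.1
      T := fun q x => (dcd e f g).T q x.1 }
  refine ⟨m, fun x => ?_, fun x => Iff.rfl⟩
  obtain ⟨g1, g2, g3, g4, g5⟩ := (h x.1).2 x.2
  refine ⟨?_, g2, g3, ?_, g5⟩
  · obtain ⟨a, b, c, d, e'⟩ := g1
    exact ⟨fun hx => ⟨Subtype.ext (a hx).1, (a hx).2⟩, fun hx => ⟨Subtype.ext (b hx).1, (b hx).2⟩,
      fun hx => ⟨Subtype.ext (c hx).1, (c hx).2⟩, fun hx => ⟨Subtype.ext (d hx).1, (d hx).2⟩,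
      fun h1 h2 => Subtype.ext (e' h1 h2)⟩
  · exact ⟨g4.1, g4.2.1, fun hx => Subtype.ext (g4.2.2 hx)⟩

end Pool.Agent.H4.FX
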